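import Pool.Agent.Q80.KT.Stm

/-!
# Project KT (helper80), job OVL: overlapping sets of pairs
-/

set_option autoImplicit false

open Finset
open scoped Classical

namespace Q265.KT.OVL

open Pool.Agent.Q80.KT Pool.Agent.Q287.SR

theorem mem_del {n : ℕ} (G : SimpleGraph (Fin n)) (O : Finset (Sym2 (Fin n))) (e : Sym2 (Fin n)) :
    e ∈ (G.deleteEdges (O : Set (Sym2 (Fin n)))).edgeSet ↔ e ∈ G.edgeSet ∧ e ∉ O := by
  rw [SimpleGraph.edgeSet_deleteEdges]
  simp

/-- the pairs of `D` which are not in `O` -/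
def D1 {n : ℕ} (D : Set (Sym2 (Fin n))) (O : Finset (Sym2 (Fin n))) : Set (Sym2 (Fin n)) :=
  {e | e ∈ D ∧ e ∈ pairs n ∧ e ∉ O}

theorem dep_del {n : ℕ} {D : Set (Sym2 (Fin n))} (O : Finset (Sym2 (Fin n)))
    {f : SimpleGraph (Fin n) → ℝ} (hf : DepOn D f) :
    DepOn (D1 D O) fun G => f (G.deleteEdges (O : Set (Sym2 (Fin n)))) := by
  intro G G' h
  refine hf _ _ fun e he => ?_
  rw [mem_del, mem_del]
  by_cases hO : e ∈ O
  · simp [hO]
  · by_cases hp : e ∈ pairs n
    · have := h e ⟨he, hp, hO⟩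
      rw [this]
    · have h1 : e ∉ G.edgeSet := fun h' => hp (mem_pairs_of_edge h')
      have h2 : e ∉ G'.edgeSet := fun h' => hp (mem_pairs_of_edge h')
      simp [h1, h2]

theorem dep_absent {n : ℕ} (O : Finset (Sym2 (Fin n))) :
    DepOn (O : Set (Sym2 (Fin n))) (absent O) := by
  intro G G' h
  unfold absent
  have h1 : (∀ e ∈ O, e ∉ G.edgeSet) ↔ ∀ e ∈ O, e ∉ G'.edgeSet :=
    forall₂_congr fun e he => not_congr (h e (by exact_mod_cast he))
  by_cases hc : ∀ e ∈ O, e ∉ G.edgeSet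
  · rw [if_pos hc, if_pos (h1.mp hc)]
  · rw [if_neg hc, if_neg (fun h' => hc (h1.mpr h'))]

theorem split {n : ℕ} (O : Finset (Sym2 (Fin n))) {f : SimpleGraph (Fin n) → ℝ}
    (h : ∀ G, f G ≠ 0 → ∀ e ∈ O, e ∉ G.edgeSet) (G : SimpleGraph (Fin n)) :
    f G = f (G.deleteEdges (O : Set (Sym2 (Fin n)))) * absent O G := by
  unfold absent
  by_cases hc : ∀ e ∈ O, e ∉ G.edgeSet
  · rw [if_pos hc, mul_one]
    congr 1
    apply SimpleGraph.edgeSet_injective
    ext e
    rw [mem_del]
    constructor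
    · intro he
      exact ⟨he, fun hO => hc e hO he⟩
    · exact fun he => he.1
  · rw [if_neg hc, mul_zero]
    by_contra h0
    exact hc (h G h0)

theorem dep_mul {n : ℕ} {D D' : Set (Sym2 (Fin n))} {f g : SimpleGraph (Fin n) → ℝ}
    (hf : DepOn D f) (hg : DepOn D' g) : DepOn (D ∪ D') fun G => f G * g G := by
  intro G G' h
  show f G * g G = f G' * g G'
  rw [hf G G' fun e he => h e (Or.inl he), hg G G' fun e he => h e (Or.inr he)]

theorem disj {n : ℕ} (D : Set (Sym2 (Fin n))) (O : Finset (Sym2 (Fin n))) :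
    Disjoint (D1 D O) (O : Set (Sym2 (Fin n))) := by
  rw [Set.disjoint_left]
  intro e he hO
  exact he.2.2 (by exact_mod_cast hO)

theorem t_OVL (h1 : S_IND) : S_OVL := by
  intro n p D D' O f g hO hDD hf hg hf0 hg0
  obtain ⟨f', hf'⟩ : ∃ f' : SimpleGraph (Fin n) → ℝ,
    f' = fun G => f (G.deleteEdges (O : Set (Sym2 (Fin n)))) := ⟨_, rfl⟩
  obtain ⟨g', hg'⟩ : ∃ g' : SimpleGraph (Fin n) → ℝ,
    g' = fun G => g (G.deleteEdges (O : Set (Sym2 (Fin n)))) := ⟨_, rfl⟩
  have df : DepOn (D1 D O) f' := by rw [hf']; exact dep_del O hf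
  have dg : DepOn (D1 D' O) g' := by rw [hg']; exact dep_del O hg
  have sf : ∀ G, f G = f' G * absent O G := fun G => by rw [hf']; exact split O hf0 G
  have sg : ∀ G, g G = g' G * absent O G := fun G => by rw [hg']; exact split O hg0 G
  have ef : Ex n p f = Ex n p f' * (1 - p) ^ O.card := by
    rw [← Ex_absent p hO, ← h1 n p (D1 D O) O f' (absent O) df (dep_absent O) (disj D O)]
    congr 1
    exact funext sf
  have eg : Ex n p g = Ex n p g' * (1 - p) ^ O.card := by
    rw [← Ex_absent p hO, ← h1 n p (D1 D' O) O g' (absent O) dg (dep_absent O) (disj D' O)]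
    congr 1
    exact funext sg
  have hd : Disjoint (D1 D O) (D1 D' O) := by
    rw [Set.disjoint_left]
    intro e he he'
    exact he.2.2 ((hDD e he.2.1).mpr ⟨he.1, he'.1⟩)
  have efg : Ex n p (fun G => f G * g G) = Ex n p f' * Ex n p g' * (1 - p) ^ O.card := by
    rw [← h1 n p (D1 D O) (D1 D' O) f' g' df dg hd, ← Ex_absent p hO,
      ← h1 n p (D1 D O ∪ D1 D' O) O (fun G => f' G * g' G) (absent O) (dep_mul df dg)
        (dep_absent O) (Set.disjoint_union_left.mpr ⟨disj D O, disj D' O⟩)]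
    congr 1
    funext G
    rw [sf G, sg G]
    have h2 : absent O G * absent O G = absent O G := by
      unfold absent
      split_ifs <;> simp
    calc f' G * absent O G * (g' G * absent O G) =
        f' G * g' G * (absent O G * absent O G) := by ring
      _ = f' G * g' G * absent O G := by rw [h2]
  rw [efg, ef, eg]
  ring

end Q265.KT.OVL
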